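import Mathlib

namespace Pool.Agent.Results.MP_7d4b8e_co.UnitArcs

open Finset

/-- The unit arc with left end x on the circle of circumference lam. -/
def arc (lam x : ℝ) : Set (AddCircle lam) :=
  (fun t : ℝ => (t : AddCircle lam)) '' Set.Ico x (x + 1)

/-- At most L members of S contain any one point. -/
def LoadLe {lam : ℝ} (S : Finset (Set (AddCircle lam))) (L : ℕ) : Prop :=
  ∀ z : AddCircle lam, {a | a ∈ S ∧ z ∈ a}.ncard ≤ L

lemma arc_shift (lam x : ℝ) (k : ℤ) : arc lam (x + k * lam) = arc lam x := by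
  have h : ∀ t : ℝ, ((t + k * lam : ℝ) : AddCircle lam) = t := by
    intro t
    rw [AddCircle.coe_add, ← zsmul_eq_mul, AddCircle.coe_zsmul, AddCircle.coe_period]
    simp
  ext z
  constructor
  · rintro ⟨t, ht, rfl⟩
    refine ⟨t - k * lam, ⟨by linarith [ht.1], by linarith [ht.2]⟩, ?_⟩
    simp only
    rw [← h (t - k * lam)]
    simp
  · rintro ⟨t, ht, rfl⟩
    exact ⟨t + k * lam, ⟨by linarith [ht.1], by linarith [ht.2]⟩, h t⟩

lemma arc_norm {lam : ℝ} (hl : 0 < lam) (x : ℝ) : ∃ y, 0 ≤ y ∧ y < lam ∧ arc lam y = arc lam x := by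
  refine ⟨x + (-⌊x / lam⌋ : ℤ) * lam, ?_, ?_, arc_shift lam x _⟩
  · have := Int.floor_le (x / lam)
    rw [le_div_iff₀ hl] at this
    push_cast; linarith
  · have := Int.lt_floor_add_one (x / lam)
    rw [div_lt_iff₀ hl] at this
    push_cast; linarith

lemma meet {lam x y : ℝ} (hx : 0 ≤ x) (hxy : x < y) (hy : y < lam)
    (h : (arc lam x ∩ arc lam y).Nonempty) : y < x + 1 ∨ x + lam < y + 1 := by
  obtain ⟨z, ⟨s, hs, rfl⟩, ⟨t, ht, e⟩⟩ := h
  simp only at e
  have : ((t - s : ℝ) : AddCircle lam) = 0 := by rw [AddCircle.coe_sub, e, sub_self]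
  rw [AddCircle.coe_eq_zero_iff] at this
  obtain ⟨k, hk⟩ := this
  rw [zsmul_eq_mul] at hk
  have hl : 0 < lam := by linarith
  rcases le_or_gt k 0 with h | h
  · left
    have : (k : ℝ) ≤ 0 := by exact_mod_cast h
    nlinarith [hs.2, ht.1]
  · right
    have : (1 : ℝ) ≤ k := by exact_mod_cast h
    nlinarith [hs.1, ht.2]

lemma core {lam : ℝ} (hl : 0 < lam) (S : Finset (Set (AddCircle lam))) (L : ℕ) (hL : 0 < L)
    (hS : ∀ a ∈ S, ∃ x, a = arc lam x) (hload : LoadLe S L) (hdvd : L ∣ S.card) :
    ∃ c : Set (AddCircle lam) → Fin L,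
      ∀ a ∈ S, ∀ b ∈ S, a ≠ b → (a ∩ b).Nonempty → c a ≠ c b := by
  classical
  have h1 : ∀ a : Set (AddCircle lam), ∃ y : ℝ, a ∈ S → 0 ≤ y ∧ y < lam ∧ arc lam y = a := by
    intro a
    by_cases ha : a ∈ S
    · obtain ⟨x, rfl⟩ := hS a ha
      obtain ⟨y, h⟩ := arc_norm hl x
      exact ⟨y, fun _ => h⟩
    · exact ⟨0, fun h => absurd h ha⟩
  choose st hst using h1
  have hinj : ∀ a ∈ S, ∀ b ∈ S, st a = st b → a = b := by
    intro a ha b hb e
    rw [← (hst a ha).2.2, ← (hst b hb).2.2, e]
  set rk : Set (AddCircle lam) → ℕ := fun a => (S.filter fun d => st d < st a).card with hrk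
  have cnt : ∀ (T : Finset (Set (AddCircle lam))) (z : AddCircle lam), T ⊆ S →
      (∀ d ∈ T, z ∈ d) → T.card ≤ L := by
    intro T z hT hz
    refine le_trans ?_ (hload z)
    rw [← Set.ncard_coe_finset]
    apply Set.ncard_le_ncard
    · intro d hd
      exact ⟨hT hd, hz d hd⟩
    · exact S.finite_toSet.subset fun d hd => hd.1
  have key : ∀ a ∈ S, ∀ b ∈ S, st a < st b → (a ∩ b).Nonempty → rk a % L ≠ rk b % L := by
    intro a ha b hb hab hmeet e
    obtain ⟨a0, a1, a2⟩ := hst a ha
    obtain ⟨b0, b1, b2⟩ := hst b hb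
    set M := S.filter fun d => st a ≤ st d ∧ st d < st b with hM
    have s1 : rk b = rk a + M.card := by
      simp only [hrk, hM]
      rw [← card_union_of_disjoint, ← filter_or]
      · congr 1
        apply filter_congr
        intro d _
        constructor
        · intro h
          rcases lt_or_ge (st d) (st a) with h' | h'
          · exact Or.inl h'
          · exact Or.inr ⟨h', h⟩
        · rintro (h | h)
          · exact h.trans hab
          · exact h.2
      · rw [disjoint_filter]
        intro d _ h h'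
        linarith [h'.1]
    have hMpos : 0 < M.card := card_pos.2 ⟨a, by simp [hM, ha, hab]⟩
    have hdM : L ∣ M.card := by
      have := (Nat.modEq_iff_dvd' (by omega : rk a ≤ rk b)).1 e
      rwa [s1, Nat.add_sub_cancel_left] at this
    have hbM : b ∉ M := by simp [hM]
    rw [← a2, ← b2] at hmeet
    rcases meet a0 hab b1 hmeet with h | h
    · have := cnt (insert b M) (st b : ℝ) (by
        rw [insert_subset_iff]; exact ⟨hb, filter_subset _ _⟩) (by
        intro d hd
        rw [mem_insert] at hd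
        rcases hd with rfl | hd
        · have : ((st d : ℝ) : AddCircle lam) ∈ arc lam (st d) := ⟨st d, ⟨le_rfl, by linarith⟩, rfl⟩
          rwa [b2] at this
        · rw [hM, mem_filter] at hd
          rw [← (hst d hd.1).2.2]
          exact ⟨st b, ⟨hd.2.2.le, by linarith [hd.2.1]⟩, rfl⟩)
      rw [card_insert_of_notMem hbM] at this
      have := Nat.le_of_dvd hMpos hdM
      omega
    · have hsub : M ⊆ S := filter_subset _ _
      have hd2 : L ∣ (S \ M).card := by
        rw [card_sdiff_of_subset hsub]; exact Nat.dvd_sub hdvd hdM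
      have hpos : 0 < (S \ M).card := card_pos.2 ⟨b, by simp [hb, hbM]⟩
      have haM : a ∉ S \ M := by simp [hM, ha, hab]
      have := cnt (insert a (S \ M)) (st a : ℝ) (by
        rw [insert_subset_iff]; exact ⟨ha, sdiff_subset⟩) (by
        intro d hd
        rw [mem_insert] at hd
        rcases hd with rfl | hd
        · have : ((st d : ℝ) : AddCircle lam) ∈ arc lam (st d) := ⟨st d, ⟨le_rfl, by linarith⟩, rfl⟩
          rwa [a2] at this
        · rw [mem_sdiff, hM, mem_filter] at hd
          obtain ⟨d0, d1, d2⟩ := hst d hd.1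
          rw [← d2]
          rcases lt_or_ge (st d) (st a) with h' | h'
          · exact ⟨st a, ⟨h'.le, by linarith⟩, rfl⟩
          · have h3 : st b ≤ st d := by
              by_contra hc
              exact hd.2 ⟨hd.1, h', not_le.1 hc⟩
            refine ⟨st a + lam, ⟨by linarith, by linarith⟩, ?_⟩
            simp)
      rw [card_insert_of_notMem haM] at this
      have := Nat.le_of_dvd hpos hd2
      omega
  refine ⟨fun a => ⟨rk a % L, Nat.mod_lt _ hL⟩, ?_⟩
  intro a ha b hb hab hmeet e
  have e' : rk a % L = rk b % L := congrArg Fin.val e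
  rcases lt_trichotomy (st a) (st b) with h | h | h
  · exact key a ha b hb h hmeet e'
  · exact hab (hinj a ha b hb h)
  · exact key b hb a ha h (by rwa [Set.inter_comm]) e'.symm

open Classical in
theorem result (lam : ℝ) (hlam : 2 ≤ lam) (A B : Finset (Set (AddCircle lam))) (L : ℕ)
    (hA : ∀ a ∈ A, ∃ x, a = arc lam x) (hB : ∀ a ∈ B, ∃ x, a = arc lam x)
    (hAB : Disjoint A B) (hcard : L ≤ B.card + 1) (hload : LoadLe (A ∪ B) L) :
    ∃ c : A → Fin L, ∀ a b : A, a ≠ b → (a.1 ∩ b.1).Nonempty → c a ≠ c b := by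
  rcases Nat.eq_zero_or_pos L with rfl | hL
  · have hemp : ∀ a, a ∉ A := by
      intro a ha
      obtain ⟨x, rfl⟩ := hA a ha
      have := hload (x : ℝ)
      rw [Nat.le_zero, Set.ncard_eq_zero ((A ∪ B).finite_toSet.subset fun d hd => hd.1)] at this
      have h2 : arc lam x ∈ {a | a ∈ A ∪ B ∧ ((x : ℝ) : AddCircle lam) ∈ a} :=
        ⟨mem_union_left _ ha, x, ⟨le_rfl, by linarith⟩, rfl⟩
      rw [this] at h2
      exact h2
    exact ⟨fun a => absurd a.2 (hemp _), fun a => absurd a.2 (hemp _)⟩
  have hr : (L - A.card % L) % L ≤ B.card := by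
    have := Nat.mod_lt (L - A.card % L) hL
    omega
  obtain ⟨B', hB', hc⟩ := exists_subset_card_eq hr
  obtain ⟨c, hc⟩ := core (by linarith) (A ∪ B') L hL (by
      intro a ha
      rcases mem_union.1 ha with h | h
      · exact hA a h
      · exact hB a (hB' h)) (by
      intro z
      refine le_trans (Set.ncard_le_ncard ?_ ?_) (hload z)
      · intro d hd
        exact ⟨union_subset_union_right hB' hd.1, hd.2⟩
      · exact (A ∪ B).finite_toSet.subset fun d hd => hd.1) (by
      rw [card_union_of_disjoint (hAB.mono_right hB'), hc]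
      apply Nat.dvd_of_mod_eq_zero
      rw [Nat.add_mod, Nat.mod_mod, Nat.add_mod_mod,
        Nat.add_sub_cancel' (Nat.mod_lt _ hL).le, Nat.mod_self])
  exact ⟨fun a => c a, fun a b hab h => hc a (mem_union_left _ a.2) b (mem_union_left _ b.2)
    (fun e => hab (Subtype.ext e)) h⟩

end Pool.Agent.Results.MP_7d4b8e_co.UnitArcs
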